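import Mathlib

/-!
The F-Borel hierarchy, Suslin sets, K-analytic spaces and the set of attainable complexities.
-/

namespace Pool.Agent.H63.FBorel

open Set Topology Ordinal

universe u

/-- `α` is odd: `α = l + m` with `l` zero or a limit ordinal and `m` an odd natural number.
All other ordinals are even. -/
def OddOrd (α : Ordinal.{0}) : Prop :=
  ∃ (l : Ordinal.{0}) (m : ℕ), (l = 0 ∨ Order.IsSuccLimit l) ∧ Odd m ∧ α = l + m

/-- `FB α S`: the set `S` belongs to the class `F_α(Y)`. The class `F_0(Y)` consists of the closed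
sets; for odd `α` the class `F_α(Y)` consists of the countable unions, and for even `α ≠ 0` of the
countable intersections, of members of the classes `F_β(Y)` with `β < α`. -/
inductive FB {Y : Type u} [TopologicalSpace Y] : Ordinal.{0} → Set Y → Prop
  | closed (S : Set Y) (hS : IsClosed S) : FB 0 S
  | union (α : Ordinal.{0}) (hα : OddOrd α) (f : ℕ → Set Y) (b : ℕ → Ordinal.{0})
      (hb : ∀ n, b n < α) (hf : ∀ n, FB (b n) (f n)) : FB α (⋃ n, f n)
  | inter (α : Ordinal.{0}) (h0 : α ≠ 0) (hα : ¬ OddOrd α) (f : ℕ → Set Y) (b : ℕ → Ordinal.{0})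
      (hb : ∀ n, b n < α) (hf : ∀ n, FB (b n) (f n)) : FB α (⋂ n, f n)

/-- Suslin-F sets: `S = ⋃_σ ⋂_k F(σ 0, ..., σ k)` with all the sets `F(n_0, ..., n_k)` closed. -/
def SuslinF {Y : Type u} [TopologicalSpace Y] (S : Set Y) : Prop :=
  ∃ F : List ℕ → Set Y, (∀ s, IsClosed (F s)) ∧
    S = ⋃ σ : ℕ → ℕ, ⋂ k : ℕ, F ((List.range (k + 1)).map σ)

/-- The classes `F_α(Y)` for all `α ≤ ω₁`, the last one being the class of Suslin-F sets. -/
def FClass {Y : Type u} [TopologicalSpace Y] (α : Ordinal.{0}) (S : Set Y) : Prop :=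
  (α < ω₁ ∧ FB α S) ∨ (α = ω₁ ∧ SuslinF S)

/-- A space is K-analytic if it is (homeomorphic to) a Suslin-F subset of a compact space. -/
def KAnalytic (X : Type) [TopologicalSpace X] : Prop :=
  ∃ (Y : Type) (_ : TopologicalSpace Y) (_ : CompactSpace Y) (_ : T2Space Y) (e : X → Y),
    IsEmbedding e ∧ SuslinF (range e)

/-- `ComplSet X`: the set of all ordinals `Compl(X, cX)`, the least `α ≤ ω₁` with `X ∈ F_α(cX)`, where
`cX` runs through the compactifications of `X`, i.e. the compact Hausdorff spaces with a dense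
embedding of `X`. -/
def ComplSet (X : Type) [TopologicalSpace X] : Set Ordinal.{0} :=
  {α | ∃ (Y : Type) (_ : TopologicalSpace Y) (_ : CompactSpace Y) (_ : T2Space Y) (e : X → Y),
    IsEmbedding e ∧ DenseRange e ∧ IsLeast {β | FClass β (range e)} α}

end Pool.Agent.H63.FBorel
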