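import Mathlib
import Pool.Agent.H63.FBorel.Defs

namespace Pool.Agent.H63.FBorel

open Set Topology Ordinal

lemma add_nat_lt {l l' : Ordinal.{0}} (h : l < l') (hl : Order.IsSuccLimit l') (m : ℕ) :
    l + m < l' := by
  induction m with
  | zero => simpa using h
  | succ m ih =>
    have := hl.succ_lt ih
    rw [Order.succ_eq_add_one, add_assoc] at this
    simpa using this

lemma odd_iff {l : Ordinal.{0}} (hl : l = 0 ∨ Order.IsSuccLimit l) (n : ℕ) :
    OddOrd (l + n) ↔ Odd n := by
  constructor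
  · rintro ⟨l', m, hl', hm, h⟩
    rcases lt_trichotomy l l' with hlt | heq | hlt
    · rcases hl' with h0 | h1
      · rw [h0] at hlt; exact absurd hlt (by simp)
      · have h2 := add_nat_lt hlt h1 n
        rw [h] at h2
        exact absurd h2 (by simp)
    · subst heq
      have : (n : Ordinal.{0}) = m := by simpa using h
      rw [Nat.cast_inj.1 this]; exact hm
    · rcases hl with h0 | h1
      · rw [h0] at hlt; exact absurd hlt (by simp)
      · have h2 := add_nat_lt hlt h1 m
        rw [← h] at h2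
        exact absurd h2 (by simp)
  · intro hn
    exact ⟨l, n, hl, hn, rfl⟩

lemma odd_nat (n : ℕ) : OddOrd (n : Ordinal.{0}) ↔ Odd n := by
  have := odd_iff (l := 0) (Or.inl rfl) n
  simpa using this

lemma odd_omega_add (n : ℕ) : OddOrd (ω + n : Ordinal.{0}) ↔ Odd n :=
  odd_iff (Or.inr isSuccLimit_omega0) n

lemma not_odd_omega : ¬ OddOrd (ω : Ordinal.{0}) := by
  have := odd_omega_add 0
  simpa using this

lemma lt_omega_add {β : Ordinal.{0}} {m : ℕ} (h : β < ω + m) :
    (∃ n : ℕ, β = n) ∨ ∃ n < m, β = ω + n := by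
  rcases lt_or_ge β ω with h1 | h1
  · exact Or.inl (lt_omega0.1 h1)
  · right
    obtain ⟨γ, rfl⟩ := exists_add_of_le h1
    have h2 : γ < m := by simpa using h
    obtain ⟨n, rfl⟩ := lt_omega0.1 (h2.trans (natCast_lt_omega0 m))
    exact ⟨n, by exact_mod_cast h2, rfl⟩

lemma omega_mul_two : (ω * 2 : Ordinal.{0}) = ω + ω := by
  rw [← one_add_one_eq_two, mul_add, mul_one]

lemma lt_omega_two {β : Ordinal.{0}} (h : β < ω * 2) : ∃ m : ℕ, β ≤ ω + m := by
  rw [omega_mul_two] at h
  rcases lt_or_ge β ω with h1 | h1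
  · exact ⟨0, by simpa using h1.le⟩
  · obtain ⟨γ, rfl⟩ := exists_add_of_le h1
    have h2 : γ < ω := by simpa using h
    obtain ⟨n, rfl⟩ := lt_omega0.1 h2
    exact ⟨n, le_rfl⟩

lemma omega_add_lt (m : ℕ) : (ω + m : Ordinal.{0}) < ω * 2 := by
  rw [omega_mul_two]
  simpa using natCast_lt_omega0 m

end Pool.Agent.H63.FBorel
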