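import Mathlib

namespace Pool.Agent.H63.FBorel

open Set

/-- the Baire space, used as a plain set -/
abbrev Br := ℕ → ℕ

/-- `pre y n` is the list `[y (n-1), ..., y 0]`. -/
def pre (y : Br) : ℕ → List ℕ
  | 0 => []
  | n + 1 => y n :: pre y n

@[simp] lemma pre_length (y : Br) (n : ℕ) : (pre y n).length = n := by
  induction n with
  | zero => rfl
  | succ n ih => simp [pre, ih]

/-- the cylinder of a node -/
def N (s : List ℕ) : Set Br := {y | pre y s.length = s}

lemma mem_N_nil (y : Br) : y ∈ N [] := rfl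

lemma N_nil : N [] = univ := by ext y; simp [mem_N_nil]

lemma mem_N_cons {y : Br} {c : ℕ} {s : List ℕ} : y ∈ N (c :: s) ↔ y ∈ N s ∧ y s.length = c := by
  simp only [N, mem_ofPred_eq, List.length_cons, pre, List.cons.injEq]
  exact and_comm

lemma mem_N_pre (y : Br) (n : ℕ) : y ∈ N (pre y n) := by
  simp [N]

lemma N_append (t s : List ℕ) : N (t ++ s) ⊆ N s := by
  induction t with
  | nil => exact fun y hy => hy
  | cons c t ih =>
    intro y hy
    rw [List.cons_append, mem_N_cons] at hy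
    exact ih hy.1

lemma pre_add (y : Br) (m n : ℕ) : ∃ t : List ℕ, t.length = m ∧ pre y (m + n) = t ++ pre y n := by
  induction m with
  | zero => exact ⟨[], rfl, by simp⟩
  | succ m ih =>
    obtain ⟨t, ht, h⟩ := ih
    refine ⟨y (m + n) :: t, by simp [ht], ?_⟩
    have : m + 1 + n = (m + n) + 1 := by ring
    rw [this, pre, h]; rfl

lemma exists_ext {y : Br} {s : List ℕ} (hy : y ∈ N s) (m : ℕ) :
    ∃ t : List ℕ, t.length = m ∧ y ∈ N (t ++ s) := by
  obtain ⟨t, ht, h⟩ := pre_add y m s.length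
  refine ⟨t, ht, ?_⟩
  have hs : pre y s.length = s := hy
  simp only [N, mem_ofPred_eq, List.length_append, ht]
  rw [h, hs]

lemma eq_of_mem_N {y : Br} {s t : List ℕ} (hs : y ∈ N s) (ht : y ∈ N t)
    (h : s.length = t.length) : s = t := by
  have h1 : pre y s.length = s := hs
  have h2 : pre y t.length = t := ht
  rw [← h1, ← h2, h]

lemma pre_apply {y z : Br} {s : List ℕ} (hy : y ∈ N s) (hz : z ∈ N s) {i : ℕ}
    (hi : i < s.length) : y i = z i := by
  induction s with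
  | nil => simp at hi
  | cons c s ih =>
    rw [mem_N_cons] at hy hz
    rcases Nat.lt_succ_iff_lt_or_eq.1 (by simpa using hi : i < s.length + 1) with h | h
    · exact ih hy.1 hz.1 h
    · rw [h, hy.2, hz.2]

/-- every list of length at least `n` is an extension of a list of length `n` -/
lemma exists_suffix (s : List ℕ) (n : ℕ) (hn : n ≤ s.length) :
    ∃ u t : List ℕ, t.length = n ∧ s = u ++ t := by
  refine ⟨s.take (s.length - n), s.drop (s.length - n), ?_, (List.take_append_drop _ _).symm⟩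
  simp; omega

/-- hereditary classes closed under finite unions -/
structure IsId (C : Set (Set Br)) : Prop where
  empty : ∅ ∈ C
  mono : ∀ J ∈ C, ∀ J' ⊆ J, J' ∈ C
  union : ∀ J ∈ C, ∀ J' ∈ C, J ∪ J' ∈ C

/-- the basic operation on classes of sets -/
def Dop (C : Set (Set Br)) : Set (Set Br) :=
  {J | ∃ n, ∀ t : List ℕ, t.length = n → J ∩ N t ∈ C}

lemma Dop_mono {C D : Set (Set Br)} (h : C ⊆ D) : Dop C ⊆ Dop D := by
  rintro J ⟨n, hn⟩
  exact ⟨n, fun t ht => h (hn t ht)⟩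

lemma subset_Dop {C : Set (Set Br)} : C ⊆ Dop C := by
  intro J hJ
  refine ⟨0, fun t ht => ?_⟩
  have : t = [] := List.length_eq_zero_iff.1 ht
  subst this
  simpa [N_nil] using hJ

lemma IsId.Dop_aux {C : Set (Set Br)} (hC : IsId C) {J : Set Br} {n : ℕ}
    (h : ∀ t : List ℕ, t.length = n → J ∩ N t ∈ C) {t : List ℕ} (ht : n ≤ t.length) :
    J ∩ N t ∈ C := by
  obtain ⟨u, v, hv, rfl⟩ := exists_suffix t n ht
  exact hC.mono _ (h v hv) _ (inter_subset_inter_right _ (N_append u v))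

lemma IsId.dop {C : Set (Set Br)} (hC : IsId C) : IsId (Dop C) := by
  refine ⟨subset_Dop hC.empty, ?_, ?_⟩
  · rintro J ⟨n, hn⟩ J' hJ'
    exact ⟨n, fun t ht => hC.mono _ (hn t ht) _ (inter_subset_inter_left _ hJ')⟩
  · rintro J ⟨n, hn⟩ J' ⟨n', hn'⟩
    refine ⟨max n n', fun t ht => ?_⟩
    rw [union_inter_distrib_right]
    exact hC.union _ (hC.Dop_aux hn (by rw [ht]; exact le_max_left _ _)) _
      (hC.Dop_aux hn' (by rw [ht]; exact le_max_right _ _))

/-- finite sets -/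
def Fi : Set (Set Br) := {J | J.Finite}

lemma Fi_isId : IsId Fi :=
  ⟨finite_empty, fun _ hJ _ h => Finite.subset hJ h, fun _ hJ _ hJ' => Finite.union hJ hJ'⟩

/-- the classes of finite rank -/
def R : ℕ → Set (Set Br)
  | 0 => Dop Fi
  | j + 1 => Dop (R j)

/-- small sets -/
def Sm : Set (Set Br) := {J | ∃ j, J ∈ R j}

/-- the classes of rank `ω + j` -/
def RR : ℕ → Set (Set Br)
  | 0 => Dop Sm
  | j + 1 => Dop (RR j)

lemma R_isId (j : ℕ) : IsId (R j) := by
  induction j with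
  | zero => exact Fi_isId.dop
  | succ j ih => exact ih.dop

lemma R_mono {i j : ℕ} (h : i ≤ j) : R i ⊆ R j := by
  induction h with
  | refl => exact fun _ h => h
  | step _ ih => exact ih.trans subset_Dop

lemma Sm_isId : IsId Sm := by
  refine ⟨⟨0, (R_isId 0).empty⟩, ?_, ?_⟩
  · rintro J ⟨j, hj⟩ J' hJ'
    exact ⟨j, (R_isId j).mono _ hj _ hJ'⟩
  · rintro J ⟨j, hj⟩ J' ⟨j', hj'⟩
    exact ⟨max j j', (R_isId _).union _ (R_mono (le_max_left _ _) hj) _
      (R_mono (le_max_right _ _) hj')⟩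

lemma RR_isId (j : ℕ) : IsId (RR j) := by
  induction j with
  | zero => exact Sm_isId.dop
  | succ j ih => exact ih.dop

lemma RR_mono {i j : ℕ} (h : i ≤ j) : RR i ⊆ RR j := by
  induction h with
  | refl => exact fun _ h => h
  | step _ ih => exact ih.trans subset_Dop

lemma R_sub_Sm (j : ℕ) : R j ⊆ Sm := fun _ h => ⟨j, h⟩

lemma Sm_sub_RR (j : ℕ) : Sm ⊆ RR j := subset_Dop.trans (RR_mono (Nat.zero_le j))

lemma Fi_sub_R (j : ℕ) : Fi ⊆ R j := subset_Dop.trans (R_mono (Nat.zero_le j))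

lemma Fi_sub_Sm : Fi ⊆ Sm := (Fi_sub_R 0).trans (R_sub_Sm 0)

/-- no accumulation point -/
def Wf (C : Set (Set Br)) : Prop := ∀ J ∈ C, ∀ σ : Br, ∃ n, (J ∩ N (pre σ n)).Finite

lemma Wf.dop {C : Set (Set Br)} (h : Wf C) : Wf (Dop C) := by
  rintro J ⟨n, hn⟩ σ
  obtain ⟨m, hm⟩ := h _ (hn (pre σ n) (pre_length _ _)) σ
  refine ⟨m + n, hm.subset ?_⟩
  obtain ⟨t, ht, h1⟩ := pre_add σ m n
  obtain ⟨t', ht', h2⟩ := pre_add σ n m
  rintro y ⟨hy, hy'⟩
  refine ⟨⟨hy, ?_⟩, ?_⟩
  · rw [h1] at hy'; exact N_append _ _ hy'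
  · rw [add_comm m n, h2] at hy'; exact N_append _ _ hy'

lemma Wf_R (j : ℕ) : Wf (R j) := by
  induction j with
  | zero => exact Wf.dop fun J hJ σ => ⟨0, hJ.subset inter_subset_left⟩
  | succ j ih => exact ih.dop

lemma Wf_Sm : Wf Sm := by
  rintro J ⟨j, hj⟩ σ
  exact Wf_R j J hj σ

lemma Wf_RR (j : ℕ) : Wf (RR j) := by
  induction j with
  | zero => exact Wf_Sm.dop
  | succ j ih => exact ih.dop

end Pool.Agent.H63.FBorel
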