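import Mathlib
import Pool.Agent.H63.FBorel.Tree

namespace Pool.Agent.H63.FBorel

open Set Topology

/-- everywhere non-meagre below the node `s` -/
def Pos (P : Set Br) (s : List ℕ) : Prop := ∀ t : List ℕ, ¬ IsMeagre (P ∩ N (t ++ s))

lemma Pos.ext {P : Set Br} {s : List ℕ} (h : Pos P s) (t : List ℕ) : Pos P (t ++ s) := by
  intro u
  rw [← List.append_assoc]
  exact h _

lemma Pos.exists_mem {P : Set Br} {s : List ℕ} (h : Pos P s) : ∃ y ∈ P, y ∈ N s := by
  obtain ⟨y, hy⟩ := nonempty_of_not_isMeagre (h [])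
  exact ⟨y, hy.1, hy.2⟩

lemma isClopen_N (s : List ℕ) : IsClopen (N s) := by
  induction s with
  | nil => rw [N_nil]; exact isClopen_univ
  | cons c s ih =>
    have : N (c :: s) = N s ∩ (fun y : Br => y s.length) ⁻¹' {c} := by
      ext y
      simp [mem_N_cons]
    rw [this]
    exact ih.inter ((isClopen_discrete {c}).preimage (continuous_apply _))

lemma N_nonempty (s : List ℕ) : (N s).Nonempty := by
  induction s with
  | nil => exact ⟨fun _ => 0, mem_N_nil _⟩
  | cons c s ih =>
    obtain ⟨y, hy⟩ := ih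
    refine ⟨Function.update y s.length c, mem_N_cons.2 ⟨?_, by simp⟩⟩
    have : ∀ n ≤ s.length, pre (Function.update y s.length c) n = pre y n := by
      intro n
      induction n with
      | zero => intro _; rfl
      | succ n ihn =>
        intro hn
        rw [pre, pre, ihn (by omega), Function.update_of_ne (by omega)]
    have h1 : pre y s.length = s := hy
    show pre _ s.length = s
    rw [this _ le_rfl, h1]

lemma exists_N_subset {U : Set Br} (hU : IsOpen U) {y : Br} (hy : y ∈ U) :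
    ∃ n, N (pre y n) ⊆ U := by
  rw [isOpen_pi_iff] at hU
  obtain ⟨I, u, h1, h2⟩ := hU y hy
  refine ⟨I.sup id + 1, fun z hz => h2 ?_⟩
  intro i hi
  have hlt : i < I.sup id + 1 := Nat.lt_succ_of_le (Finset.le_sup (f := id) hi)
  have : z i = y i := pre_apply hz (mem_N_pre y _) (by simpa using hlt)
  rw [this]
  exact (h1 i hi).2

lemma pos_univ (s : List ℕ) : Pos univ s := by
  intro t
  rw [univ_inter]
  exact not_isMeagre_of_isOpen (isClopen_N _).isOpen (N_nonempty _)

lemma meagre_of_dense {Q : Set Br} {s : List ℕ}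
    (h : ∀ t : List ℕ, ∃ t' : List ℕ, IsMeagre (Q ∩ N (t' ++ (t ++ s)))) :
    IsMeagre (Q ∩ N s) := by
  classical
  let G : Set Br := ⋃ t : {t : List ℕ // IsMeagre (Q ∩ N t)}, N t.1
  have hG : IsOpen G := isOpen_iUnion fun t => (isClopen_N t.1).isOpen
  have h1 : IsMeagre (Q ∩ G) := by
    rw [inter_iUnion]
    exact isMeagre_iUnion fun t => t.2
  have h2 : IsMeagre (N s \ G) := by
    apply IsNowhereDense.isMeagre
    have hcl : IsClosed (N s \ G) := (isClopen_N s).isClosed.sdiff hG
    rw [IsNowhereDense, hcl.closure_eq]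
    by_contra hne
    obtain ⟨y, hy⟩ := nonempty_iff_ne_empty.2 hne
    obtain ⟨n, hn⟩ := exists_N_subset isOpen_interior hy
    have hys : y ∈ N s := (interior_subset hy).1
    obtain ⟨t, ht, hyt⟩ := exists_ext hys n
    obtain ⟨t', ht'⟩ := h t
    obtain ⟨z, hz⟩ := N_nonempty (t' ++ (t ++ s))
    have hzG : z ∈ G := mem_iUnion.2 ⟨⟨_, ht'⟩, hz⟩
    have hzn : z ∈ N (pre y n) := by
      have e1 : t ++ s = pre y (n + s.length) := by
        have h3 : pre y (t ++ s).length = t ++ s := hyt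
        rw [← h3, List.length_append, ht]
      obtain ⟨v, -, hv⟩ := pre_add y s.length n
      rw [e1, add_comm n, hv] at hz
      exact N_append _ _ (N_append _ _ hz)
    exact (interior_subset (hn hzn)).2 hzG
  refine (h1.union h2).mono ?_
  rintro y ⟨hy1, hy2⟩
  by_cases hyG : y ∈ G
  · exact Or.inl ⟨hy1, hyG⟩
  · exact Or.inr ⟨hy2, hyG⟩

lemma Pos.split {P : Set Br} {s : List ℕ} (h : Pos P s) {Q : ℕ → Set Br} (hQ : P ⊆ ⋃ m, Q m) :
    ∃ (t : List ℕ) (m : ℕ), Pos (P ∩ Q m) (t ++ s) := by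
  by_contra hcon
  push Not at hcon
  apply h []
  have h1 : ∀ m, IsMeagre ((P ∩ Q m) ∩ N s) := by
    intro m
    apply meagre_of_dense
    intro t
    have := hcon t m
    unfold Pos at this
    push Not at this
    exact this
  refine (isMeagre_iUnion h1).mono ?_
  rintro y ⟨hy1, hy2⟩
  obtain ⟨m, hm⟩ := mem_iUnion.1 (hQ hy1)
  exact mem_iUnion.2 ⟨m, ⟨hy1, hm⟩, hy2⟩

end Pool.Agent.H63.FBorel
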