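import Mathlib
import Pool.Agent.H63.FBorel.Tree

namespace Pool.Agent.H63.FBorel

open Set Cardinal

/-- a well founded scheme -/
inductive Sch : Type
  | leaf (d : ℕ → Br) : Sch
  | node (u : ℕ → List ℕ) (f : ℕ → Sch) : Sch

/-- the code of the first `n` values of `x` -/
def code (x : Br) (n : ℕ) : ℕ := Encodable.encode (pre x n)

lemma code_inj {x x' : Br} {n m : ℕ} (h : code x n = code x' m) : n = m ∧ pre x n = pre x' n := by
  have h1 : pre x n = pre x' m := Encodable.encode_injective h
  have h2 : n = m := by simpa using congrArg List.length h1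
  subst h2
  exact ⟨rfl, h1⟩

/-- the broom realised by a scheme at the node `s` with parameter `x` -/
def real : Sch → List ℕ → Br → Set Br
  | Sch.leaf d, s, x => {y | ∃ n, y = d (code x n) ∧ y ∈ N (code x n :: s)}
  | Sch.node u f, s, x => ⋃ n, real (f (code x n)) (u (code x n) ++ (code x n :: s)) x

/-- the part of the broom in the n-th cone -/
def piece : Sch → List ℕ → Br → ℕ → Set Br
  | Sch.leaf d, s, x, n => {y | y = d (code x n) ∧ y ∈ N (code x n :: s)}
  | Sch.node u f, s, x, n => real (f (code x n)) (u (code x n) ++ (code x n :: s)) x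

lemma real_eq (D : Sch) (s : List ℕ) (x : Br) : real D s x = ⋃ n, piece D s x n := by
  cases D with
  | leaf d => ext y; simp [real, piece]
  | node u f => simp [real, piece]

lemma real_sub (D : Sch) (s : List ℕ) (x : Br) : real D s x ⊆ N s := by
  induction D generalizing s with
  | leaf d =>
    rintro y ⟨n, -, hy⟩
    exact (mem_N_cons.1 hy).1
  | node u f ih =>
    intro y hy
    simp only [real, mem_iUnion] at hy
    obtain ⟨n, hn⟩ := hy
    have := ih _ _ hn
    exact (mem_N_cons.1 (N_append _ _ this)).1

lemma piece_sub (D : Sch) (s : List ℕ) (x : Br) (n : ℕ) : piece D s x n ⊆ N (code x n :: s) := by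
  cases D with
  | leaf d => rintro y ⟨-, hy⟩; exact hy
  | node u f => intro y hy; exact N_append _ _ (real_sub _ _ _ hy)

lemma piece_at {D : Sch} {s : List ℕ} {x : Br} {n : ℕ} {y : Br} (h : y ∈ piece D s x n) :
    y s.length = code x n := (mem_N_cons.1 (piece_sub _ _ _ _ h)).2

lemma finite_of_subsingleton_index {A : ℕ → Set Br} (h : ∀ n, (A n).Finite)
    (h1 : {n | (A n).Nonempty}.Finite) : (⋃ n, A n).Finite := by
  have : (⋃ n, A n) = ⋃ n ∈ {n | (A n).Nonempty}, A n := by
    ext y
    simp only [mem_iUnion, mem_ofPred_eq]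
    constructor
    · rintro ⟨n, hn⟩; exact ⟨n, ⟨y, hn⟩, hn⟩
    · rintro ⟨n, -, hn⟩; exact ⟨n, hn⟩
  rw [this]
  exact h1.biUnion fun n _ => h n

lemma step_aux {D : Sch} {s s' : List ℕ} {x : Br} {B : Set Br}
    (hB : B ⊆ N s') (hl : s.length < s'.length)
    (h : ∀ n, (piece D s x n ∩ B).Finite) : (real D s x ∩ B).Finite := by
  rw [real_eq, iUnion_inter]
  refine finite_of_subsingleton_index h ?_
  apply Set.Subsingleton.finite
  rintro n ⟨y, hy⟩ m ⟨z, hz⟩
  have h1 : y s.length = z s.length := pre_apply (hB hy.2) (hB hz.2) hl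
  rw [piece_at hy.1, piece_at hz.1] at h1
  exact (code_inj h1).1

/-- almost disjointness of brooms with different parameters -/
theorem almost_disjoint {x x' : Br} (hx : x ≠ x') (D : Sch) :
    ∀ (s : List ℕ) (D' : Sch) (s' : List ℕ), (real D s x ∩ real D' s' x').Finite := by
  -- first reduce to pieces
  have key : ∀ D : Sch, (∀ (s : List ℕ) (D' : Sch) (s' : List ℕ) (n : ℕ),
      (piece D s x n ∩ real D' s' x').Finite) →
      ∀ (s : List ℕ) (D' : Sch) (s' : List ℕ), (real D s x ∩ real D' s' x').Finite := by
    intro D hD s D'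
    have key2 : ∀ D' : Sch, (∀ (s' : List ℕ) (n : ℕ), (real D s x ∩ piece D' s' x' n).Finite) →
        ∀ s', (real D s x ∩ real D' s' x').Finite := by
      intro D' hD' s'
      rcases lt_trichotomy s.length s'.length with hl | hl | hl
      · exact step_aux (real_sub _ _ _) hl fun n => hD s D' s' n
      · obtain ⟨i, hi⟩ : ∃ i, x i ≠ x' i := Function.ne_iff.1 hx
        rw [real_eq D s x, iUnion_inter]
        refine finite_of_subsingleton_index (fun n => hD s D' s' n) ?_
        refine (finite_le_nat i).subset ?_
        rintro n ⟨y, hy, hy'⟩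
        rw [real_eq, mem_iUnion] at hy'
        obtain ⟨m, hm⟩ := hy'
        have h1 := piece_at hy
        have h2 := piece_at hm
        rw [← hl, h1] at h2
        obtain ⟨-, h3⟩ := code_inj h2
        by_contra hn
        simp only [mem_ofPred_eq, not_le] at hn
        apply hi
        have h4 : x ∈ N (pre x n) := mem_N_pre _ _
        have h5 : x' ∈ N (pre x n) := by rw [h3]; exact mem_N_pre _ _
        exact pre_apply h4 h5 (by simpa using hn)
      · rw [inter_comm]
        refine step_aux (real_sub _ _ _) hl fun n => ?_
        rw [inter_comm]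
        exact hD' s' n
    induction D' with
    | leaf d =>
      apply key2
      intro s' n
      apply Set.Subsingleton.finite
      rintro y ⟨-, hy, -⟩ z ⟨-, hz, -⟩
      rw [hy, hz]
    | node u f ih =>
      apply key2
      intro s' n
      exact ih _ _
  induction D with
  | leaf d =>
    apply key
    intro s D' s' n
    apply Set.Subsingleton.finite
    rintro y ⟨⟨hy, -⟩, -⟩ z ⟨⟨hz, -⟩, -⟩
    rw [hy, hz]
  | node u f ih =>
    apply key
    intro s D' s' n
    exact ih _ _ _ _

/-- labels -/
abbrev Lab := (ℕ → Br) ⊕ (ℕ → List ℕ)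

/-- an encoding of schemes by labelled trees -/
def enc : Sch → List ℕ → Lab
  | Sch.leaf d, _ => Sum.inl d
  | Sch.node u _, [] => Sum.inr u
  | Sch.node _ f, c :: w => enc (f c) w

lemma enc_injective : Function.Injective enc := by
  intro D
  induction D with
  | leaf d =>
    intro D' h
    cases D' with
    | leaf d' =>
      have := congrFun h []
      simp only [enc, Sum.inl.injEq] at this
      rw [this]
    | node u' f' =>
      have := congrFun h []
      simp [enc] at this
  | node u f ih =>
    intro D' h
    cases D' with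
    | leaf d' =>
      have := congrFun h []
      simp [enc] at this
    | node u' f' =>
      have h1 := congrFun h []
      simp only [enc, Sum.inr.injEq] at h1
      have h2 : f = f' := by
        funext c
        apply ih c
        funext w
        simpa [enc] using congrFun h (c :: w)
      rw [h1, h2]

lemma exists_par : ∃ κ : (List ℕ × Sch) → Br, Function.Injective κ := by
  have h1 : #(List ℕ × (List ℕ → Lab)) ≤ #Br := by
    simp [Lab, Br]
  obtain ⟨g⟩ := h1
  refine ⟨fun p => g (p.1, enc p.2), ?_⟩
  intro p q h
  have := g.injective h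
  simp only [Prod.mk.injEq] at this
  exact Prod.ext this.1 (enc_injective this.2)

end Pool.Agent.H63.FBorel
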