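import Mathlib
import Pool.Agent.H63.FBorel.Tree
import Pool.Agent.H63.FBorel.Scheme
import Pool.Agent.H63.FBorel.Positive
import Pool.Agent.H63.FBorel.Ord

namespace Pool.Agent.H63.FBorel

open Set Topology Ordinal

/-- `p` is in the closure of the image of every infinite subset of `H` -/
def LimPt {Y : Type*} [TopologicalSpace Y] (g : Br → Y) (H : Set Br) (p : Y) : Prop :=
  ∀ H' ⊆ H, H'.Infinite → p ∈ closure (g '' H')

lemma LimPt.mono {Y : Type*} [TopologicalSpace Y] {g : Br → Y} {H H' : Set Br} {p : Y}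
    (h : LimPt g H p) (hH : H' ⊆ H) : LimPt g H' p :=
  fun K hK hi => h K (hK.trans hH) hi

/-- the class attached to an ordinal below `ω * 2` -/
def Bd (α : Ordinal.{0}) (C : Set (Set Br)) : Prop :=
  (∃ m : ℕ, α = m ∧ C = R m) ∨ (∃ m : ℕ, α = ω + m ∧ C = RR m)

lemma Bd.pred {α : Ordinal.{0}} {C : Set (Set Br)} (h : Bd α C) :
    ∃ C₀ : Set (Set Br), IsId C₀ ∧ C₀ ⊆ C ∧ (α ≠ 0 → Dop C₀ ⊆ C) ∧
      ∀ β < α, ∃ C', Bd β C' ∧ C' ⊆ C₀ := by
  rcases h with ⟨m, rfl, rfl⟩ | ⟨m, rfl, rfl⟩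
  · cases m with
    | zero =>
      refine ⟨Fi, Fi_isId, Fi_sub_R 0, fun h => absurd (by simp) h, ?_⟩
      intro β hβ
      exact absurd hβ (by simp)
    | succ m =>
      refine ⟨R m, R_isId m, R_mono (Nat.le_succ m), fun _ => le_rfl, ?_⟩
      intro β hβ
      obtain ⟨n, rfl⟩ := lt_omega0.1 (hβ.trans (natCast_lt_omega0 _))
      have hn : n < m + 1 := by exact_mod_cast hβ
      exact ⟨R n, Or.inl ⟨n, rfl, rfl⟩, R_mono (by omega)⟩
  · cases m with
    | zero =>
      refine ⟨Sm, Sm_isId, Sm_sub_RR 0, fun _ => le_rfl, ?_⟩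
      intro β hβ
      obtain ⟨n, rfl⟩ := lt_omega0.1 (by simpa using hβ)
      exact ⟨R n, Or.inl ⟨n, rfl, rfl⟩, R_sub_Sm n⟩
    | succ m =>
      refine ⟨RR m, RR_isId m, RR_mono (Nat.le_succ m), fun _ => le_rfl, ?_⟩
      intro β hβ
      rcases lt_omega_add hβ with ⟨n, rfl⟩ | ⟨n, hn, rfl⟩
      · exact ⟨R n, Or.inl ⟨n, rfl, rfl⟩, (R_sub_Sm n).trans (Sm_sub_RR m)⟩
      · exact ⟨RR n, Or.inr ⟨n, rfl, rfl⟩, RR_mono (by omega)⟩

/-- the length coded by a number -/
def nn (c : ℕ) : ℕ := ((Encodable.decode c : Option (List ℕ)).getD []).length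

lemma nn_code (x : Br) (n : ℕ) : nn (code x n) = n := by
  simp [nn, code]

theorem lower {Y : Type*} [TopologicalSpace Y] (g : Br → Y) {α : Ordinal.{0}} {Z : Set Y}
    (h : FB α Z) : ∀ C : Set (Set Br), Bd α C → ∀ (P : Set Br) (s : List ℕ),
      (∀ y ∈ P, g y ∈ Z) → Pos P s → ∃ (u : List ℕ) (D : Sch), ∀ x : Br,
        (real D (u ++ s) x).Infinite ∧ real D (u ++ s) x ∈ C ∧
        ∀ p, LimPt g (real D (u ++ s) x) p → p ∈ Z := by
  induction h with
  | closed S hS =>
    intro C hC P s hP hpos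
    have hC0 : C = R 0 := by
      rcases hC with ⟨m, h1, h2⟩ | ⟨m, h1, h2⟩
      · have : m = 0 := by exact_mod_cast h1.symm
        rw [h2, this]
      · exfalso
        have h3 : (ω : Ordinal.{0}) ≤ 0 := by
          rw [h1]; exact le_self_add
        exact absurd h3 (by simp)
    subst hC0
    have h1 : ∀ c : ℕ, ∃ y ∈ P, y ∈ N (c :: s) := fun c => (hpos.ext [c]).exists_mem
    choose d hdP hdN using h1
    refine ⟨[], Sch.leaf d, fun x => ⟨?_, ?_, ?_⟩⟩
    · have h2 : range (fun n => d (code x n)) ⊆ real (Sch.leaf d) ([] ++ s) x := by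
        rintro y ⟨n, rfl⟩
        exact ⟨n, rfl, hdN _⟩
      refine (infinite_range_of_injective ?_).mono h2
      intro n m hnm
      have h3 := (mem_N_cons.1 (hdN (code x n))).2
      have h4 := (mem_N_cons.1 (hdN (code x m))).2
      simp only at hnm
      rw [hnm, h4] at h3
      exact (code_inj h3.symm).1
    · refine ⟨s.length + 1, fun t ht => ?_⟩
      apply Set.Subsingleton.finite
      rintro y ⟨⟨n, hy, hy'⟩, hyt⟩ z ⟨⟨m, hz, hz'⟩, hzt⟩
      have h5 : y s.length = z s.length := pre_apply hyt hzt (by omega)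
      have h6 := (mem_N_cons.1 hy').2
      have h7 := (mem_N_cons.1 hz').2
      simp only [List.nil_append] at h6 h7
      rw [h6, h7] at h5
      rw [hy, hz, h5]
    · intro p hp
      rw [← hS.closure_eq]
      have h8 : (real (Sch.leaf d) ([] ++ s) x).Infinite := by
        have h2 : range (fun n => d (code x n)) ⊆ real (Sch.leaf d) ([] ++ s) x := by
          rintro y ⟨n, rfl⟩
          exact ⟨n, rfl, hdN _⟩
        refine (infinite_range_of_injective ?_).mono h2
        intro n m hnm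
        have h3 := (mem_N_cons.1 (hdN (code x n))).2
        have h4 := (mem_N_cons.1 (hdN (code x m))).2
        simp only at hnm
        rw [hnm, h4] at h3
        exact (code_inj h3.symm).1
      refine closure_mono ?_ (hp _ le_rfl h8)
      rintro _ ⟨y, ⟨n, rfl, -⟩, rfl⟩
      exact hP _ (hdP _)
  | union α hα f b hb hf ih =>
    intro C hC P s hP hpos
    obtain ⟨C₀, hid, hsub, -, hpred⟩ := hC.pred
    have h1 : P ⊆ ⋃ m, {y | g y ∈ f m} := by
      intro y hy
      obtain ⟨m, hm⟩ := mem_iUnion.1 (hP y hy)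
      exact mem_iUnion.2 ⟨m, hm⟩
    obtain ⟨t, m, hm⟩ := hpos.split h1
    obtain ⟨C', hC', hsub'⟩ := hpred _ (hb m)
    obtain ⟨u, D, hD⟩ := ih m C' hC' _ _ (fun y hy => hy.2) hm
    refine ⟨u ++ t, D, fun x => ?_⟩
    rw [List.append_assoc]
    exact ⟨(hD x).1, hsub (hsub' (hD x).2.1), fun p hp => mem_iUnion.2 ⟨m, (hD x).2.2 p hp⟩⟩
  | inter α h0 hα f b hb hf ih =>
    intro C hC P s hP hpos
    obtain ⟨C₀, hid, hsub, hdop, hpred⟩ := hC.pred
    have h1 : ∀ n c : ℕ, ∃ (u : List ℕ) (D : Sch), ∀ x : Br,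
        (real D (u ++ (c :: s)) x).Infinite ∧ real D (u ++ (c :: s)) x ∈ C₀ ∧
        ∀ p, LimPt g (real D (u ++ (c :: s)) x) p → p ∈ f n := by
      intro n c
      obtain ⟨C', hC', hsub'⟩ := hpred _ (hb n)
      obtain ⟨u, D, hD⟩ := ih n C' hC' P (c :: s) (fun y hy => mem_iInter.1 (hP y hy) n)
        (hpos.ext [c])
      exact ⟨u, D, fun x => ⟨(hD x).1, hsub' (hD x).2.1, (hD x).2.2⟩⟩
    choose u D hD using h1
    refine ⟨[], Sch.node (fun c => u (nn c) c) (fun c => D (nn c) c), fun x => ?_⟩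
    have h2 : real (Sch.node (fun c => u (nn c) c) (fun c => D (nn c) c)) ([] ++ s) x =
        ⋃ n, real (D n (code x n)) (u n (code x n) ++ (code x n :: s)) x := by
      simp only [real, nn_code, List.nil_append]
    rw [h2]
    refine ⟨?_, ?_, ?_⟩
    · exact (hD 0 (code x 0) x).1.mono (subset_iUnion
        (fun n => real (D n (code x n)) (u n (code x n) ++ (code x n :: s)) x) 0)
    · refine hdop h0 ⟨s.length + 1, fun t ht => ?_⟩
      by_cases hex : ∃ n, t = code x n :: s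
      · obtain ⟨n, rfl⟩ := hex
        refine hid.mono _ (hD n (code x n) x).2.1 _ ?_
        rintro y ⟨hy, hyt⟩
        obtain ⟨m, hm⟩ := mem_iUnion.1 hy
        have h3 := (mem_N_cons.1 (N_append _ _ (real_sub _ _ _ hm))).2
        have h4 := (mem_N_cons.1 hyt).2
        rw [h3] at h4
        obtain ⟨rfl, -⟩ := code_inj h4
        exact hm
      · refine hid.mono _ hid.empty _ ?_
        rintro y ⟨hy, hyt⟩
        obtain ⟨m, hm⟩ := mem_iUnion.1 hy
        exfalso
        apply hex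
        refine ⟨m, ?_⟩
        exact eq_of_mem_N hyt (N_append _ _ (real_sub _ _ _ hm)) (by simp [ht])
    · intro p hp
      rw [mem_iInter]
      intro n
      refine (hD n (code x n) x).2.2 p (hp.mono ?_)
      exact subset_iUnion
        (fun n => real (D n (code x n)) (u n (code x n) ++ (code x n :: s)) x) n

end Pool.Agent.H63.FBorel
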