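import Mathlib
import Pool.Agent.H63.FBorel.Lower

namespace Pool.Agent.H63.FBorel

open Set Topology Ordinal

/-- an injective parametrisation -/
noncomputable def par : List ℕ × Sch → Br := exists_par.choose

lemma par_inj : Function.Injective par := exists_par.choose_spec

/-- the almost disjoint family of brooms in the k-th cone -/
def AFam (k : ℕ) : Set (Set Br) :=
  {A | ∃ (u : List ℕ) (D : Sch), A = real D (u ++ [k]) (par (u, D)) ∧ A ∈ RR k ∧ A.Infinite}

lemma AFam_ad {k : ℕ} {A A' : Set Br} (hA : A ∈ AFam k) (hA' : A' ∈ AFam k) (h : A ≠ A') :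
    (A ∩ A').Finite := by
  obtain ⟨u, D, rfl, -, -⟩ := hA
  obtain ⟨u', D', rfl, -, -⟩ := hA'
  apply almost_disjoint
  intro h1
  have h2 := par_inj h1
  simp only [Prod.mk.injEq] at h2
  apply h
  rw [h2.1, h2.2]

lemma AFam_sub {k : ℕ} {A : Set Br} (hA : A ∈ AFam k) : A ⊆ N [k] := by
  obtain ⟨u, D, rfl, -, -⟩ := hA
  exact (real_sub _ _ _).trans (N_append _ _)

/-- the ideal generated by the brooms and the finite sets -/
def Ik (k : ℕ) : Set (Set Br) :=
  {J | ∃ G : Set (Set Br), G.Finite ∧ G ⊆ AFam k ∧ (J \ ⋃₀ G).Finite}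

lemma Ik_isId (k : ℕ) : IsId (Ik k) := by
  refine ⟨⟨∅, finite_empty, empty_subset _, by simp⟩, ?_, ?_⟩
  · rintro J ⟨G, h1, h2, h3⟩ J' hJ'
    exact ⟨G, h1, h2, h3.subset (sdiff_subset_sdiff_left hJ')⟩
  · rintro J ⟨G, h1, h2, h3⟩ J' ⟨G', h1', h2', h3'⟩
    refine ⟨G ∪ G', h1.union h1', union_subset h2 h2', (h3.union h3').subset ?_⟩
    rintro y ⟨hy, hy'⟩
    rw [sUnion_union, mem_union, not_or] at hy'
    rcases hy with hy | hy
    · exact Or.inl ⟨hy, hy'.1⟩
    · exact Or.inr ⟨hy, hy'.2⟩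

lemma Fi_sub_Ik (k : ℕ) : Fi ⊆ Ik k :=
  fun J hJ => ⟨∅, finite_empty, empty_subset _, Finite.subset hJ sdiff_subset⟩

lemma sUnion_mem_RR {k : ℕ} {G : Set (Set Br)} (hG : G.Finite) (h : G ⊆ AFam k) :
    ⋃₀ G ∈ RR k := by
  induction G, hG using Set.Finite.induction_on with
  | empty => rw [sUnion_empty]; exact (RR_isId k).empty
  | @insert A G _ _ ih =>
    rw [sUnion_insert]
    obtain ⟨-, -, -, h1, -⟩ := h (mem_insert A G)
    exact (RR_isId k).union _ h1 _ (ih fun B hB => h (mem_insert_of_mem _ hB))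

lemma Ik_sub_RR (k : ℕ) : Ik k ⊆ RR k := by
  rintro J ⟨G, h1, h2, h3⟩
  refine (RR_isId k).mono _ ((RR_isId k).union _ (sUnion_mem_RR h1 h2) _
    ((Fi_sub_Sm.trans (Sm_sub_RR k)) h3)) _ ?_
  intro y hy
  by_cases h : y ∈ ⋃₀ G
  · exact Or.inl h
  · exact Or.inr ⟨hy, h⟩

/-- the ideal defining the space -/
def JJ : Set (Set Br) :=
  {J | (∀ k, J ∩ N [k] ∈ Ik k) ∧ ∃ K, ∀ k ≥ K, J ∩ N [k] ∈ Sm}

lemma JJ_isId : IsId JJ := by
  refine ⟨⟨fun k => ?_, 0, fun k _ => ?_⟩, ?_, ?_⟩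
  · rw [empty_inter]; exact (Ik_isId k).empty
  · rw [empty_inter]; exact Sm_isId.empty
  · rintro J ⟨h1, K, h2⟩ J' hJ'
    exact ⟨fun k => (Ik_isId k).mono _ (h1 k) _ (inter_subset_inter_left _ hJ'), K,
      fun k hk => Sm_isId.mono _ (h2 k hk) _ (inter_subset_inter_left _ hJ')⟩
  · rintro J ⟨h1, K, h2⟩ J' ⟨h1', K', h2'⟩
    refine ⟨fun k => ?_, max K K', fun k hk => ?_⟩
    · rw [union_inter_distrib_right]; exact (Ik_isId k).union _ (h1 k) _ (h1' k)
    · rw [union_inter_distrib_right]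
      exact Sm_isId.union _ (h2 k (le_trans (le_max_left _ _) hk)) _
        (h2' k (le_trans (le_max_right _ _) hk))

lemma Fi_sub_JJ : Fi ⊆ JJ := fun _ hJ =>
  ⟨fun k => Fi_sub_Ik k (Finite.subset hJ inter_subset_left), 0,
    fun _ _ => Fi_sub_Sm (Finite.subset hJ inter_subset_left)⟩

lemma JJ_wf {J : Set Br} (hJ : J ∈ JJ) (σ : Br) : ∃ n, (J ∩ N (pre σ (n + 1))).Finite := by
  obtain ⟨n, hn⟩ := Wf_RR (σ 0) _ (Ik_sub_RR _ (hJ.1 (σ 0))) σ
  refine ⟨n, hn.subset ?_⟩
  rintro y ⟨hy, hy'⟩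
  refine ⟨⟨hy, ?_⟩, (mem_N_cons.1 hy').1⟩
  obtain ⟨t, -, ht⟩ := pre_add σ n 1
  rw [ht] at hy'
  exact N_append _ _ hy'

/-- the space -/
def Sp : Type := Option Br

/-- the topology: all points `some y` are isolated, the complements of the members of `JJ` are the
neighbourhoods of `none` -/
instance : TopologicalSpace Sp where
  IsOpen U := (none : Option Br) ∈ (U : Set (Option Br)) → {y : Br | (some y : Option Br) ∉ U} ∈ JJ
  isOpen_univ := fun _ => by
    have : {y : Br | (some y : Option Br) ∉ (univ : Set (Option Br))} = ∅ := by ext; simp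
    exact this ▸ JJ_isId.empty
  isOpen_inter := by
    intro U V hU hV h
    refine JJ_isId.mono _ (JJ_isId.union _ (hU h.1) _ (hV h.2)) _ ?_
    intro y hy
    by_cases hyU : (some y : Option Br) ∈ (U : Set (Option Br))
    · exact Or.inr fun hyV => hy ⟨hyU, hyV⟩
    · exact Or.inl hyU
  isOpen_sUnion := by
    intro S hS h
    obtain ⟨U, hU, hn⟩ := h
    refine JJ_isId.mono _ (hS U hU hn) _ ?_
    intro y hy hyU
    exact hy ⟨U, hU, hyU⟩

/-- the isolated points -/
def pt (y : Br) : Sp := (some y : Option Br)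

/-- the point at infinity -/
def infty : Sp := (none : Option Br)

lemma pt_inj : Function.Injective pt := Option.some_injective _

lemma pt_ne (y : Br) : pt y ≠ infty := fun h => Option.some_ne_none y h

lemma sp_cases (x : Sp) : x = infty ∨ ∃ y, x = pt y := by
  cases x using Option.recOn with
  | none => exact Or.inl rfl
  | some y => exact Or.inr ⟨y, rfl⟩

lemma isOpen_iff_JJ {U : Set Sp} : IsOpen U ↔ (infty ∈ U → {y | pt y ∉ U} ∈ JJ) := Iff.rfl

/-- the Boolean ring of the k-th compactification -/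
def BB (k : ℕ) : Set (Set Br) :=
  {B | B ∈ JJ ∧ ∀ A ∈ AFam k, (A \ B).Finite ∨ (A ∩ B).Finite}

lemma Fi_sub_BB (k : ℕ) : Fi ⊆ BB k :=
  fun _ hB => ⟨Fi_sub_JJ hB, fun _ _ => Or.inr (Finite.subset hB inter_subset_right)⟩

lemma sUnion_inter_finite {k : ℕ} {G : Set (Set Br)} (hG : G.Finite) (h : G ⊆ AFam k)
    {A : Set Br} (hA : A ∈ AFam k) (hAG : A ∉ G) : (A ∩ ⋃₀ G).Finite := by
  rw [sUnion_eq_biUnion, inter_iUnion₂]
  refine hG.biUnion fun B hB => AFam_ad hA (h hB) ?_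
  rintro rfl
  exact hAG hB

lemma sUnion_mem_JJ {k : ℕ} {G : Set (Set Br)} (hG : G.Finite) (h : G ⊆ AFam k) :
    ⋃₀ G ∈ JJ := by
  have h0 : ∀ k', k' ≠ k → ⋃₀ G ∩ N [k'] = ∅ := by
    intro k' hk'
    rw [eq_empty_iff_forall_notMem]
    rintro y ⟨⟨A, hA, hy⟩, hy'⟩
    have h1 := (mem_N_cons.1 (AFam_sub (h hA) hy)).2
    have h2 := (mem_N_cons.1 hy').2
    exact hk' (h2.symm.trans h1)
  refine ⟨fun k' => ?_, k + 1, fun k' hk' => ?_⟩
  · by_cases hk : k' = k
    · subst hk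
      refine ⟨G, hG, h, ?_⟩
      rw [sdiff_eq_empty.2 inter_subset_left]
      exact finite_empty
    · rw [h0 k' hk]; exact (Ik_isId k').empty
  · rw [h0 k' (by omega)]; exact Sm_isId.empty

lemma exists_BB (k : ℕ) {J : Set Br} (hJ : J ∈ JJ) : ∃ B ∈ BB k, J ⊆ B := by
  obtain ⟨G, h1, h2, h3⟩ := hJ.1 k
  refine ⟨J ∪ ⋃₀ G, ⟨JJ_isId.union _ hJ _ (sUnion_mem_JJ h1 h2), fun A hA => ?_⟩,
    subset_union_left⟩
  by_cases hAG : A ∈ G
  · left
    have : A \ (J ∪ ⋃₀ G) = ∅ := sdiff_eq_empty.2 ((subset_sUnion_of_mem hAG).trans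
      subset_union_right)
    rw [this]; exact finite_empty
  · right
    refine (h3.union (sUnion_inter_finite h1 h2 hA hAG)).subset ?_
    rintro y ⟨hyA, hy⟩
    by_cases hyG : y ∈ ⋃₀ G
    · exact Or.inr ⟨hyA, hyG⟩
    · rcases hy with hy | hy
      · exact Or.inl ⟨⟨hy, AFam_sub hA hyA⟩, hyG⟩
      · exact absurd hy hyG

lemma AFam_sub_BB {k : ℕ} : AFam k ⊆ BB k := by
  intro A hA
  have h1 : A ∈ JJ := by
    have := sUnion_mem_JJ (finite_singleton A) (singleton_subset_iff.2 hA)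
    rwa [sUnion_singleton] at this
  refine ⟨h1, fun A' hA' => ?_⟩
  by_cases h : A' = A
  · subst h; left; rw [sdiff_self]; exact finite_empty
  · exact Or.inr (AFam_ad hA' hA h)

open Classical in
/-- the map into the cube -/
noncomputable def Phi (k : ℕ) (x : Sp) : BB k → Bool :=
  fun B => decide (∃ y ∈ B.1, x = pt y)

lemma Phi_infty (k : ℕ) (B : BB k) : Phi k infty B = false := by
  simp only [Phi, decide_eq_false_iff_not, not_exists, not_and]
  intro y _ h
  exact pt_ne y h.symm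

lemma Phi_pt (k : ℕ) (y : Br) (B : BB k) : Phi k (pt y) B = true ↔ y ∈ B.1 := by
  simp only [Phi, decide_eq_true_eq]
  constructor
  · rintro ⟨z, hz, h⟩
    rw [pt_inj h]; exact hz
  · intro h; exact ⟨y, h, rfl⟩

lemma Phi_continuous (k : ℕ) : Continuous (Phi k) := by
  refine continuous_pi fun B => ?_
  rw [continuous_def]
  intro s _
  rw [isOpen_iff_JJ]
  intro hn
  rw [mem_preimage, Phi_infty] at hn
  refine JJ_isId.mono _ B.2.1 _ ?_
  intro y hy
  rw [← Phi_pt k y B]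
  by_contra h
  rw [Bool.not_eq_true] at h
  apply hy
  rw [mem_preimage, h]
  exact hn

lemma Phi_embedding (k : ℕ) : IsEmbedding (Phi k) := by
  refine ⟨⟨le_antisymm (Phi_continuous k).le_induced ?_⟩, ?_⟩
  · intro U hU
    rw [isOpen_induced_iff]
    have key : ∀ x ∈ U, ∃ V : Set (BB k → Bool), IsOpen V ∧ Phi k x ∈ V ∧ Phi k ⁻¹' V ⊆ U := by
      intro x hx
      rcases sp_cases x with rfl | ⟨y, rfl⟩
      · obtain ⟨B, hB, hJB⟩ := exists_BB k (isOpen_iff_JJ.1 hU hx)
        refine ⟨(fun f => f ⟨B, hB⟩) ⁻¹' {false},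
          (isOpen_discrete _).preimage (continuous_apply _), Phi_infty _ _, ?_⟩
        intro z hz
        rcases sp_cases z with rfl | ⟨y, rfl⟩
        · exact hx
        · by_contra hyU
          have h1 := (Phi_pt k y ⟨B, hB⟩).2 (hJB hyU)
          rw [mem_preimage, mem_preimage, mem_singleton_iff, h1] at hz
          exact absurd hz (by simp)
      · have hy : ({y} : Set Br) ∈ BB k := Fi_sub_BB k (finite_singleton y)
        refine ⟨(fun f => f ⟨{y}, hy⟩) ⁻¹' {true},
          (isOpen_discrete _).preimage (continuous_apply _), ?_, ?_⟩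
        · exact (Phi_pt k y ⟨{y}, hy⟩).2 rfl
        · intro z hz
          rw [mem_preimage, mem_preimage, mem_singleton_iff] at hz
          rcases sp_cases z with rfl | ⟨w, rfl⟩
          · rw [Phi_infty] at hz; exact absurd hz (by simp)
          · have h1 : w = y := (Phi_pt k w ⟨{y}, hy⟩).1 hz
            rw [h1]; exact hx
    choose! V hV1 hV2 hV3 using key
    refine ⟨⋃ x ∈ U, V x, isOpen_biUnion hV1, ?_⟩
    ext z
    simp only [mem_preimage, mem_iUnion]
    constructor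
    · rintro ⟨x, hx, hz⟩; exact hV3 x hx hz
    · intro hz; exact ⟨z, hz, hV2 z hz⟩
  · intro x z h
    rcases sp_cases x with rfl | ⟨y, rfl⟩
    · rcases sp_cases z with rfl | ⟨w, rfl⟩
      · rfl
      · have hw : ({w} : Set Br) ∈ BB k := Fi_sub_BB k (finite_singleton w)
        have h1 := congrFun h ⟨{w}, hw⟩
        rw [Phi_infty, (Phi_pt k w ⟨{w}, hw⟩).2 rfl] at h1
        exact absurd h1 (by simp)
    · have hy : ({y} : Set Br) ∈ BB k := Fi_sub_BB k (finite_singleton y)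
      have h1 := congrFun h ⟨{y}, hy⟩
      rw [(Phi_pt k y ⟨{y}, hy⟩).2 rfl] at h1
      rcases sp_cases z with rfl | ⟨w, rfl⟩
      · rw [Phi_infty] at h1; exact absurd h1 (by simp)
      · have h2 : w = y := (Phi_pt k w ⟨{y}, hy⟩).1 h1.symm
        rw [h2]

/-- the k-th compactification -/
def Yk (k : ℕ) : Type := closure (range (Phi k))

instance (k : ℕ) : TopologicalSpace (Yk k) :=
  inferInstanceAs (TopologicalSpace (closure (range (Phi k))))

instance (k : ℕ) : CompactSpace (Yk k) :=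
  isCompact_iff_compactSpace.1 isClosed_closure.isCompact

instance (k : ℕ) : T2Space (Yk k) :=
  inferInstanceAs (T2Space (closure (range (Phi k))))

lemma val_inducing (k : ℕ) : IsInducing (fun p : Yk k => (p.1 : BB k → Bool)) :=
  IsInducing.subtypeVal

/-- the embedding -/
noncomputable def ek (k : ℕ) (x : Sp) : Yk k := ⟨Phi k x, subset_closure (mem_range_self x)⟩

lemma ek_embedding (k : ℕ) : IsEmbedding (ek k) :=
  (Phi_embedding k).codRestrict _ _

lemma ek_dense (k : ℕ) : DenseRange (ek k) := by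
  have h : Dense (range (ek k) : Set (closure (range (Phi k)))) := by
    rw [Subtype.dense_iff]
    intro q hq
    refine closure_mono ?_ hq
    rintro _ ⟨x, rfl⟩
    exact ⟨ek k x, mem_range_self x, rfl⟩
  exact h

lemma exists_limit {k : ℕ} {A : Set Br} (hA : A ∈ AFam k) :
    ∃ p : Yk k, p ∉ range (ek k) ∧ LimPt (fun y => ek k (pt y)) A p := by
  classical
  have hinf : A.Infinite := by obtain ⟨-, -, -, -, h⟩ := hA; exact h
  let q : BB k → Bool := fun B => decide (A \ B.1).Finite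
  have hq : ∀ B : BB k, {y ∈ A | Phi k (pt y) B ≠ q B}.Finite := by
    intro B
    rcases B.2.2 A hA with h | h
    · refine h.subset ?_
      rintro y ⟨hy, hne⟩
      refine ⟨hy, fun hyB => hne ?_⟩
      rw [(Phi_pt k y B).2 hyB]
      exact (decide_eq_true h).symm
    · refine h.subset ?_
      rintro y ⟨hy, hne⟩
      refine ⟨hy, ?_⟩
      by_contra hyB
      apply hne
      have h1 : Phi k (pt y) B = false := by
        rw [← Bool.not_eq_true, Phi_pt]; exact hyB
      rw [h1]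
      symm
      apply decide_eq_false
      intro hfin
      apply hinf
      refine (hfin.union h).subset ?_
      intro z hz
      by_cases hzB : z ∈ B.1
      · exact Or.inr ⟨hz, hzB⟩
      · exact Or.inl ⟨hz, hzB⟩
  have hlim : ∀ H' ⊆ A, H'.Infinite → q ∈ closure ((fun y => Phi k (pt y)) '' H') := by
    intro H' hH' hi
    rw [mem_closure_iff]
    intro U hU hqU
    rw [isOpen_pi_iff] at hU
    obtain ⟨I, u, h1, h2⟩ := hU q hqU
    have h3 : (⋃ B ∈ I, {y ∈ A | Phi k (pt y) B ≠ q B}).Finite :=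
      I.finite_toSet.biUnion fun B _ => hq B
    obtain ⟨y, hy, hy'⟩ := (hi.sdiff h3).nonempty
    refine ⟨Phi k (pt y), h2 ?_, mem_image_of_mem _ hy⟩
    intro B hB
    have h4 : Phi k (pt y) B = q B := by
      by_contra hne
      exact hy' (mem_biUnion hB ⟨hH' hy, hne⟩)
    rw [h4]
    exact (h1 B hB).2
  have hqcl : q ∈ closure (range (Phi k)) := by
    refine closure_mono ?_ (hlim A le_rfl hinf)
    rintro _ ⟨y, -, rfl⟩
    exact mem_range_self _
  refine ⟨⟨q, hqcl⟩, ?_, ?_⟩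
  · rintro ⟨x, hx⟩
    have hx' : Phi k x = q := congrArg Subtype.val hx
    rcases sp_cases x with rfl | ⟨y, rfl⟩
    · have h1 := congrFun hx' ⟨A, AFam_sub_BB hA⟩
      rw [Phi_infty] at h1
      have h2 : q ⟨A, AFam_sub_BB hA⟩ = true := by
        apply decide_eq_true
        show (A \ A).Finite
        rw [sdiff_self]; exact finite_empty
      rw [h2] at h1
      exact absurd h1 (by simp)
    · have hy : ({y} : Set Br) ∈ BB k := Fi_sub_BB k (finite_singleton y)
      have h1 := congrFun hx' ⟨{y}, hy⟩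
      rw [(Phi_pt k y ⟨{y}, hy⟩).2 rfl] at h1
      have h2 : q ⟨{y}, hy⟩ = false := by
        apply decide_eq_false
        exact hinf.sdiff (finite_singleton y)
      rw [h2] at h1
      exact absurd h1 (by simp)
  · intro H' hH' hi
    rw [(val_inducing k).closure_eq_preimage_closure_image]
    refine closure_mono ?_ (hlim H' hH' hi)
    rintro _ ⟨y, hy, rfl⟩
    exact ⟨ek k (pt y), mem_image_of_mem _ hy, rfl⟩

lemma not_FB {k : ℕ} {α : Ordinal.{0}} (hα : α ≤ ω + k) : ¬ FB α (range (ek k)) := by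
  intro h
  have hb : ∃ C, Bd α C ∧ C ⊆ RR k := by
    rcases hα.lt_or_eq with h1 | h1
    · rcases lt_omega_add h1 with ⟨n, rfl⟩ | ⟨n, hn, rfl⟩
      · exact ⟨R n, Or.inl ⟨n, rfl, rfl⟩, (R_sub_Sm n).trans (Sm_sub_RR k)⟩
      · exact ⟨RR n, Or.inr ⟨n, rfl, rfl⟩, RR_mono hn.le⟩
    · exact ⟨RR k, Or.inr ⟨k, h1, rfl⟩, le_rfl⟩
  obtain ⟨C, hC, hsub⟩ := hb
  obtain ⟨u, D, hD⟩ := lower (fun y => ek k (pt y)) h C hC univ [k]
    (fun y _ => mem_range_self _) (pos_univ _)
  obtain ⟨h1, h2, h3⟩ := hD (par (u, D))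
  have hA : real D (u ++ [k]) (par (u, D)) ∈ AFam k := ⟨u, D, rfl, hsub h2, h1⟩
  obtain ⟨p, hp, hlim⟩ := exists_limit hA
  exact hp (h3 p hlim)

end Pool.Agent.H63.FBorel
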