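import Mathlib
import Pool.Agent.H63.FBorel.Space

namespace Pool.Agent.H63.FBorel

open Set Topology Ordinal

set_option linter.unusedSectionVars false

section classes

variable {Y : Type*} [TopologicalSpace Y]

/-- the operation on families of sets -/
def Zst (W : List ℕ → Set Y) (s : List ℕ) : Set Y :=
  ⋂ n : ℕ, ⋃ t : {t : List ℕ // t.length = n}, W (t.1 ++ s)

lemma Zst_sub (W : List ℕ → Set Y) (s : List ℕ) : Zst W s ⊆ W s := by
  intro p hp
  obtain ⟨⟨t, ht⟩, h⟩ := mem_iUnion.1 (mem_iInter.1 hp 0)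
  have : t = [] := List.length_eq_zero_iff.1 ht
  subst this
  exact h

lemma FB_iUnion {ι : Type*} [Countable ι] [Nonempty ι] {α β : Ordinal.{0}} (hα : OddOrd α)
    (hβ : β < α) {f : ι → Set Y} (hf : ∀ i, FB β (f i)) : FB α (⋃ i, f i) := by
  obtain ⟨g, hg⟩ := exists_surjective_nat ι
  have : (⋃ i, f i) = ⋃ n, f (g n) := (hg.iUnion_comp f).symm
  rw [this]
  exact FB.union α hα _ (fun _ => β) (fun _ => hβ) fun n => hf _

lemma Zst_FB {l : Ordinal.{0}} (hl : l = 0 ∨ Order.IsSuccLimit l) {m : ℕ} (hm : Even m)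
    {W : List ℕ → Set Y} (h : ∀ s, FB (l + m) (W s)) (s : List ℕ) :
    FB (l + (m + 2 : ℕ)) (Zst W s) := by
  have h1 : OddOrd (l + (m + 1 : ℕ)) := (odd_iff hl _).2 hm.add_one
  have h2 : ¬ OddOrd (l + (m + 2 : ℕ)) := by
    rw [odd_iff hl, Nat.not_odd_iff_even]
    exact hm.add (by decide)
  have h3 : l + (m + 2 : ℕ) ≠ 0 := by
    have h5 : (0 : Ordinal.{0}) < ((m + 2 : ℕ) : Ordinal.{0}) := by
      exact_mod_cast Nat.succ_pos (m + 1)
    have h6 : ((m + 2 : ℕ) : Ordinal.{0}) ≤ l + (m + 2 : ℕ) := le_add_self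
    exact (h5.trans_le h6).ne'
  refine FB.inter _ h3 h2 _ (fun _ => l + (m + 1 : ℕ)) (fun _ => ?_) fun n => ?_
  · have : (m + 1 : ℕ) < m + 2 := Nat.lt_succ_self _
    exact (add_lt_add_iff_left l).2 (by exact_mod_cast this)
  · have : Nonempty {t : List ℕ // t.length = n} := ⟨⟨List.replicate n 0, by simp⟩⟩
    refine FB_iUnion h1 (β := l + m) ?_ fun t => h _
    have : (m : ℕ) < m + 1 := Nat.lt_succ_self _
    exact (add_lt_add_iff_left l).2 (by exact_mod_cast this)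

lemma Zst_out {C : Set (Set Br)} (hC : IsId C) {JV : Set Br} {p : Y} {W : List ℕ → Set Y}
    {s₀ : List ℕ} (h : ∀ t, JV ∩ N (t ++ s₀) ∈ C → p ∉ W (t ++ s₀)) :
    ∀ t, JV ∩ N (t ++ s₀) ∈ Dop C → p ∉ Zst W (t ++ s₀) := by
  rintro t ⟨n, hn⟩ hp
  obtain ⟨⟨t', ht'⟩, h1⟩ := mem_iUnion.1 (mem_iInter.1 hp n)
  simp only at h1
  rw [← List.append_assoc] at h1
  refine h _ ?_ h1
  have h2 := hC.Dop_aux hn (t := t' ++ (t ++ s₀)) (by simp [ht'])
  rw [List.append_assoc]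
  exact hC.mono _ h2 _ fun y hy => ⟨⟨hy.1, N_append _ _ hy.2⟩, hy.2⟩

end classes

section comp

variable {Y : Type*} [TopologicalSpace Y] [CompactSpace Y] [T2Space Y] (e : Sp → Y)

/-- closures of the cones -/
def cl (s : List ℕ) : Set Y := closure (e '' (pt '' N s ∪ {infty}))

/-- finite levels -/
def Z : ℕ → List ℕ → Set Y
  | 0 => Zst (cl e)
  | j + 1 => Zst (Z j)

/-- level omega -/
def Zw (s : List ℕ) : Set Y := ⋂ j, Z e j s

/-- levels above omega -/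
def ZZ : ℕ → List ℕ → Set Y
  | 0 => Zw e
  | j + 1 => Zst (ZZ j)

lemma Z_FB (j : ℕ) (s : List ℕ) : FB ((2 * j + 2 : ℕ) : Ordinal.{0}) (Z e j s) := by
  induction j generalizing s with
  | zero =>
    have := Zst_FB (l := 0) (Or.inl rfl) (m := 0) (by decide) (W := cl e)
      (fun s => by
        have h := FB.closed (cl e s) isClosed_closure
        simpa using h) s
    rw [zero_add] at this
    exact this
  | succ j ih =>
    have := Zst_FB (l := 0) (Or.inl rfl) (m := 2 * j + 2) ⟨j + 1, by ring⟩ (W := Z e j)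
      (fun s => by simpa using ih s) s
    have h2 : 2 * (j + 1) + 2 = 2 * j + 2 + 2 := by ring
    rw [zero_add] at this
    rw [h2]
    exact this

lemma Zw_FB (s : List ℕ) : FB ω (Zw e s) :=
  FB.inter _ omega0_ne_zero not_odd_omega _ (fun j => ((2 * j + 2 : ℕ) : Ordinal.{0}))
    (fun _ => natCast_lt_omega0 _) fun j => Z_FB e j s

lemma ZZ_FB (j : ℕ) (s : List ℕ) : FB (ω + (2 * j : ℕ)) (ZZ e j s) := by
  induction j generalizing s with
  | zero =>
    have h := Zw_FB e s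
    simpa [ZZ] using h
  | succ j ih =>
    have := Zst_FB (l := ω) (Or.inr isSuccLimit_omega0) (m := 2 * j) ⟨j, by ring⟩
      (W := ZZ e j) ih s
    have h2 : 2 * (j + 1) = 2 * j + 2 := by ring
    rw [h2]
    exact this

lemma ZZ_anti {i j : ℕ} (h : i ≤ j) (s : List ℕ) : ZZ e j s ⊆ ZZ e i s := by
  induction h with
  | refl => exact le_rfl
  | step _ ih => exact (Zst_sub _ _).trans ih

lemma ZZ_union_FB (M : ℕ) : FB (ω + (2 * M + 1 : ℕ)) (⋃ k : ℕ, ZZ e M [k]) := by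
  refine FB.union _ ((odd_omega_add _).2 ⟨M, rfl⟩) _ (fun _ => ω + (2 * M : ℕ)) (fun _ => ?_)
    fun k => ZZ_FB e M [k]
  have : (2 * M : ℕ) < 2 * M + 1 := Nat.lt_succ_self _
  exact (add_lt_add_iff_left ω).2 (by exact_mod_cast this)

/-! points of the space belong to these sets -/

lemma Zst_pt {W : List ℕ → Set Y} (h : ∀ s, ∀ y ∈ N s, e (pt y) ∈ W s) :
    ∀ s, ∀ y ∈ N s, e (pt y) ∈ Zst W s := by
  intro s y hy
  refine mem_iInter.2 fun n => ?_
  obtain ⟨t, ht, h1⟩ := exists_ext hy n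
  exact mem_iUnion.2 ⟨⟨t, ht⟩, h _ _ h1⟩

lemma Zst_infty {W : List ℕ → Set Y} (h : ∀ s, e infty ∈ W s) : ∀ s, e infty ∈ Zst W s := by
  intro s
  refine mem_iInter.2 fun n => ?_
  exact mem_iUnion.2 ⟨⟨List.replicate n 0, by simp⟩, h _⟩

lemma cl_pt : ∀ s, ∀ y ∈ N s, e (pt y) ∈ cl e s := fun _ y hy =>
  subset_closure ⟨pt y, Or.inl ⟨y, hy, rfl⟩, rfl⟩

lemma cl_infty : ∀ s, e infty ∈ cl e s := fun _ => subset_closure ⟨infty, Or.inr rfl, rfl⟩

lemma Z_pt (j : ℕ) : ∀ s, ∀ y ∈ N s, e (pt y) ∈ Z e j s := by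
  induction j with
  | zero => exact Zst_pt e (cl_pt e)
  | succ j ih => exact Zst_pt e ih

lemma Z_infty (j : ℕ) : ∀ s, e infty ∈ Z e j s := by
  induction j with
  | zero => exact Zst_infty e (cl_infty e)
  | succ j ih => exact Zst_infty e ih

lemma ZZ_pt (j : ℕ) : ∀ s, ∀ y ∈ N s, e (pt y) ∈ ZZ e j s := by
  induction j with
  | zero => exact fun s y hy => mem_iInter.2 fun j => Z_pt e j s y hy
  | succ j ih => exact Zst_pt e ih

lemma ZZ_infty (j : ℕ) : ∀ s, e infty ∈ ZZ e j s := by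
  induction j with
  | zero => exact fun s => mem_iInter.2 fun j => Z_infty e j s
  | succ j ih => exact Zst_infty e ih

/-! points of the remainder -/

/-- the trace of a set -/
def tr (V : Set Y) : Set Br := {y | e (pt y) ∈ V}

lemma cl_out {p : Y} (hp : p ∉ range e) {V : Set Y} (hV : IsOpen V) (hpV : p ∈ V) {s : List ℕ}
    (h : (tr e V ∩ N s).Finite) : p ∉ cl e s := by
  intro hcl
  have hfin : (e '' (pt '' (tr e V ∩ N s)) ∪ {e infty}).Finite :=
    ((h.image _).image _).union (finite_singleton _)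
  rw [cl, mem_closure_iff] at hcl
  have hmem : p ∉ e '' (pt '' (tr e V ∩ N s)) ∪ {e infty} := by
    rintro (⟨x, -, rfl⟩ | h1)
    · exact hp (mem_range_self x)
    · exact hp ⟨infty, (mem_singleton_iff.1 h1).symm⟩
  obtain ⟨q, ⟨hqV, hq⟩, x, hx, rfl⟩ := hcl (V \ (e '' (pt '' (tr e V ∩ N s)) ∪ {e infty}))
    (hV.sdiff hfin.isClosed) ⟨hpV, hmem⟩
  rcases hx with ⟨y, hy, rfl⟩ | hx
  · exact hq (Or.inl ⟨pt y, ⟨y, ⟨hqV, hy⟩, rfl⟩, rfl⟩)
  · rw [mem_singleton_iff] at hx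
    subst hx
    exact hq (Or.inr rfl)

lemma Z_out {p : Y} (hp : p ∉ range e) {V : Set Y} (hV : IsOpen V) (hpV : p ∈ V) (j : ℕ) :
    ∀ s, tr e V ∩ N s ∈ R j → p ∉ Z e j s := by
  have key : ∀ t : List ℕ, tr e V ∩ N (t ++ []) ∈ R j → p ∉ Z e j (t ++ []) := by
    induction j with
    | zero => exact Zst_out Fi_isId fun t h => cl_out e hp hV hpV h
    | succ j ih => exact Zst_out (R_isId j) ih
  intro s
  simpa using key s

lemma Zw_out {p : Y} (hp : p ∉ range e) {V : Set Y} (hV : IsOpen V) (hpV : p ∈ V) :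
    ∀ s, tr e V ∩ N s ∈ Sm → p ∉ Zw e s := by
  rintro s ⟨j, hj⟩ h
  exact Z_out e hp hV hpV j s hj (mem_iInter.1 h j)

lemma ZZ_out {p : Y} (hp : p ∉ range e) {V : Set Y} (hV : IsOpen V) (hpV : p ∈ V) (j : ℕ) :
    ∀ s, tr e V ∩ N s ∈ RR j → p ∉ ZZ e (j + 1) s := by
  have key : ∀ t : List ℕ, tr e V ∩ N (t ++ []) ∈ RR j → p ∉ ZZ e (j + 1) (t ++ []) := by
    induction j with
    | zero => exact Zst_out Sm_isId fun t h => Zw_out e hp hV hpV _ h
    | succ j ih => exact Zst_out (RR_isId j) ih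
  intro s
  simpa using key s

variable (he : IsEmbedding e)

include he in
lemma tr_mem_JJ {O : Set Y} (hO : IsOpen O) (h : e infty ∈ O) {V : Set Y} (hV : Disjoint V O) :
    tr e V ∈ JJ := by
  have h1 : IsOpen (e ⁻¹' O) := hO.preimage he.continuous
  refine JJ_isId.mono _ (isOpen_iff_JJ.1 h1 h) _ ?_
  intro y hy hy'
  exact (disjoint_left.1 hV) hy hy'

include he in
lemma exists_nhd {p : Y} (hp : p ∉ range e) : ∃ V : Set Y, IsOpen V ∧ p ∈ V ∧ tr e V ∈ JJ := by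
  have hne : p ≠ e infty := fun h => hp ⟨infty, h.symm⟩
  obtain ⟨V, O, hV, hO, hpV, hO', hd⟩ := t2_separation hne
  exact ⟨V, hV, hpV, tr_mem_JJ e he hO hO' hd⟩

/-- the bad cones -/
def Bad : Set ℕ := {k | ∃ J ∈ Ik k, J ⊆ N [k] ∧ J ∈ Sm ∧
  ∀ V : Set Y, IsOpen V → closure (e '' (pt '' J)) ⊆ V → tr e V ∩ N [k] ∉ Sm}

include he in
lemma bad_bounded : ∃ K, ∀ k ≥ K, k ∉ Bad e := by
  classical
  by_contra hcon
  push Not at hcon
  have h0 : ∀ k, ∃ J : Set Br, J ∈ Ik k ∧ J ⊆ N [k] ∧ J ∈ Sm ∧ (k ∈ Bad e →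
      ∀ V : Set Y, IsOpen V → closure (e '' (pt '' J)) ⊆ V → tr e V ∩ N [k] ∉ Sm) := by
    intro k
    by_cases hk : k ∈ Bad e
    · obtain ⟨J, h1, h2, h3, h4⟩ := hk
      exact ⟨J, h1, h2, h3, fun _ => h4⟩
    · exact ⟨∅, (Ik_isId k).empty, empty_subset _, Sm_isId.empty, fun h => absurd h hk⟩
  choose J h1 h2 h3 h4 using h0
  have h5 : ∀ k, (⋃ i, J i) ∩ N [k] = J k := by
    intro k
    ext y
    constructor
    · rintro ⟨hy, hyk⟩
      obtain ⟨i, hi⟩ := mem_iUnion.1 hy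
      have h6 := (mem_N_cons.1 (h2 i hi)).2
      have h7 := (mem_N_cons.1 hyk).2
      have : i = k := h6.symm.trans h7
      rw [← this]; exact hi
    · intro hy
      exact ⟨mem_iUnion.2 ⟨k, hy⟩, h2 k hy⟩
  have hJ : (⋃ i, J i) ∈ JJ := by
    refine ⟨fun k => ?_, 0, fun k _ => ?_⟩
    · rw [h5]; exact h1 k
    · rw [h5]; exact h3 k
  have hU : IsOpen ((pt '' ⋃ i, J i)ᶜ : Set Sp) := by
    rw [isOpen_iff_JJ]
    intro _
    refine JJ_isId.mono _ hJ _ ?_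
    intro y hy
    simp only [mem_compl_iff, not_not, mem_ofPred_eq] at hy
    obtain ⟨z, hz, hzy⟩ := hy
    rw [← pt_inj hzy]; exact hz
  obtain ⟨O, hO, hOU⟩ := he.isInducing.isOpen_iff.1 hU
  have hinf : e infty ∈ O := by
    have : infty ∈ e ⁻¹' O := by
      rw [hOU]
      rintro ⟨z, -, hz⟩
      exact pt_ne z hz
    exact this
  obtain ⟨O', hO'mem, hO'cl, hO'sub⟩ : ∃ O' ∈ 𝓝 (e infty), IsClosed O' ∧ O' ⊆ O :=
    exists_mem_nhds_isClosed_subset (hO.mem_nhds hinf)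
  obtain ⟨O'', hO''sub, hO''open, hO''mem⟩ := mem_nhds_iff.1 hO'mem
  have htr : tr e (O'ᶜ) ∈ JJ := by
    refine tr_mem_JJ e he hO''open hO''mem ?_
    exact disjoint_compl_left.mono_right hO''sub
  obtain ⟨-, K, hK⟩ := htr
  obtain ⟨k, hk, hbad⟩ := hcon K
  refine h4 k hbad O'ᶜ hO'cl.isOpen_compl ?_ (hK k hk)
  intro x hx hxO'
  obtain ⟨q, hqO, z, ⟨y, hy, rfl⟩, rfl⟩ := mem_closure_iff.1 hx O hO (hO'sub hxO')
  have : pt y ∈ e ⁻¹' O := hqO
  rw [hOU] at this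
  exact this ⟨y, mem_iUnion.2 ⟨k, hy⟩, rfl⟩

include he in
lemma good_out {k : ℕ} (hk : k ∉ Bad e) {p : Y} (hp : p ∉ range e) : p ∉ Zw e [k] := by
  by_cases hcase : ∃ V : Set Y, IsOpen V ∧ p ∈ V ∧ tr e V ∩ N [k] ∈ Sm
  · obtain ⟨V, hV, hpV, hs⟩ := hcase
    exact Zw_out e hp hV hpV _ hs
  · push Not at hcase
    obtain ⟨V, hV, hpV, hJ⟩ := exists_nhd e he hp
    have hA : tr e V ∩ N [k] ∈ Ik k := hJ.1 k
    have h0 : ∀ t : List ℕ, tr e V ∩ N (t ++ [k]) ∈ Sm → p ∉ cl e (t ++ [k]) := by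
      intro t ht hpcl
      have h1 : ∃ V' : Set Y, IsOpen V' ∧ closure (e '' (pt '' (tr e V ∩ N (t ++ [k])))) ⊆ V' ∧
          tr e V' ∩ N [k] ∈ Sm := by
        by_contra hcon
        push Not at hcon
        exact hk ⟨tr e V ∩ N (t ++ [k]), (Ik_isId k).mono _ hA _
          (inter_subset_inter_right _ (N_append _ _)),
          inter_subset_right.trans (N_append _ _), ht, hcon⟩
      obtain ⟨V', hV', hcl, hsm⟩ := h1
      refine hcase V' hV' (hcl ?_) hsm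
      rw [mem_closure_iff]
      intro O hO hpO
      have hne : p ≠ e infty := fun h => hp ⟨infty, h.symm⟩
      obtain ⟨q, ⟨⟨hqO, hqV⟩, hq⟩, x, hx, rfl⟩ := mem_closure_iff.1 hpcl ((O ∩ V) \ {e infty})
        ((hO.inter hV).sdiff isClosed_singleton) ⟨⟨hpO, hpV⟩, hne⟩
      rcases hx with ⟨y, hy, rfl⟩ | hx
      · exact ⟨e (pt y), hqO, pt y, ⟨y, ⟨hqV, hy⟩, rfl⟩, rfl⟩
      · rw [mem_singleton_iff] at hx
        subst hx
        exact absurd rfl hq
    have key : ∀ j, ∀ t : List ℕ, tr e V ∩ N (t ++ [k]) ∈ RR j → p ∉ Z e j (t ++ [k]) := by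
      intro j
      induction j with
      | zero => exact Zst_out Sm_isId h0
      | succ j ih => exact Zst_out (RR_isId j) ih
    intro h
    exact key k [] (Ik_sub_RR k hA) (mem_iInter.1 h k)

include he in
theorem upper : ∃ M : ℕ, FB (ω + (2 * M + 1 : ℕ)) (range e) := by
  obtain ⟨K, hK⟩ := bad_bounded e he
  refine ⟨K + 1, ?_⟩
  have : range e = ⋃ k : ℕ, ZZ e (K + 1) [k] := by
    apply Subset.antisymm
    · rintro _ ⟨x, rfl⟩
      rcases sp_cases x with rfl | ⟨y, rfl⟩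
      · exact mem_iUnion.2 ⟨0, ZZ_infty e _ _⟩
      · exact mem_iUnion.2 ⟨y 0, ZZ_pt e _ _ y (mem_N_cons.2 ⟨mem_N_nil y, rfl⟩)⟩
    · intro p hp
      by_contra hpn
      obtain ⟨k, hk⟩ := mem_iUnion.1 hp
      rcases lt_or_ge k K with h | h
      · obtain ⟨V, hV, hpV, hJ⟩ := exists_nhd e he hpn
        exact ZZ_out e hpn hV hpV k [k] (Ik_sub_RR k (hJ.1 k)) (ZZ_anti e (by omega) _ hk)
      · exact good_out e he (hK k h) hpn (ZZ_anti e (Nat.zero_le _) _ hk)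
  rw [this]
  exact ZZ_union_FB e (K + 1)

lemma pre_eq (σ : Br) (n : ℕ) : pre σ n = ((List.range n).map σ).reverse := by
  induction n with
  | zero => rfl
  | succ n ih => rw [pre, ih, List.range_succ, List.map_append, List.reverse_append]; rfl

include he in
theorem suslin : SuslinF (range e) := by
  refine ⟨fun s => cl e s.reverse, fun s => isClosed_closure, ?_⟩
  simp only [← pre_eq]
  apply Subset.antisymm
  · rintro _ ⟨x, rfl⟩
    rcases sp_cases x with rfl | ⟨y, rfl⟩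
    · exact mem_iUnion.2 ⟨fun _ => 0, mem_iInter.2 fun k => cl_infty e _⟩
    · exact mem_iUnion.2 ⟨y, mem_iInter.2 fun k => cl_pt e _ _ (mem_N_pre y _)⟩
  · intro p hp
    by_contra hpn
    obtain ⟨σ, hσ⟩ := mem_iUnion.1 hp
    obtain ⟨V, hV, hpV, hJ⟩ := exists_nhd e he hpn
    obtain ⟨n, hn⟩ := JJ_wf hJ σ
    exact cl_out e hpn hV hpV hn (mem_iInter.1 hσ n)

end comp

end Pool.Agent.H63.FBorel
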